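import Pool.Agent.helper2.DKZ.Final

set_option autoImplicit false

open Pool.Agent.helper2.DKZ

namespace Pool.Agent.Results.MP_e6e34a_mp.DKZNotOptimal

/-- The DKZ measurements do not minimise the critical visibility, for all sufficiently large `d`:
some choice `(u,w)` has `v*(u,w) < v*(DKZ)`, and at the visibility `v = 3/5` the behaviour of
`(u,w)` is nonlocal while the DKZ behaviour is local. -/
theorem result :
    ∃ D : ℕ, ∀ d : ℕ, D ≤ d → ∃ u w : Fin 2 → Fin d → (Fin d → ℂ),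
      IsMeas u ∧ IsMeas w ∧ critVis u w < critVis (dkzA d) (dkzB d) ∧
      ¬ IsLocal (behaviour (3 / 5) u w) ∧ IsLocal (behaviour (3 / 5) (dkzA d) (dkzB d)) := by
  have half : ∀ d : ℕ, 1 ≤ d → ∀ u w : Fin 2 → Fin d → (Fin d → ℂ), IsMeas u → IsMeas w →
      IsLocal (behaviour (1 / 2) u w) := fun d hd u w hu hw => isLocal_half hu hw hd
  have crit : ∀ (d : ℕ) (_ : 1 ≤ d) (u w : Fin 2 → Fin d → (Fin d → ℂ)) (_ : IsMeas u)
      (_ : IsMeas w) (ε : ℝ), (∀ v ∈ Set.Icc (0 : ℝ) 1, IsLocal (behaviour v u w) →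
        v ≤ 1 / 2 + ε) → critVis u w ≤ 1 / 2 + ε := by
    intro d hd u w hu hw ε h
    refine csSup_le ⟨1 / 2, ⟨by norm_num, by norm_num⟩, half d hd u w hu hw⟩ ?_
    rintro v ⟨hv, hloc⟩
    exact h v hv hloc
  obtain ⟨D, hD⟩ := exists_good (1 / 20) (by norm_num)
  refine ⟨max D 2, fun d hd => ?_⟩
  have hd2 : 2 ≤ d := le_trans (le_max_right _ _) hd
  obtain ⟨u, w, hu, hw, h⟩ := hD d (le_trans (le_max_left _ _) hd)
  have h1 := crit d (by omega) u w hu hw _ h
  have h2 := dkz_critVis hd2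
  refine ⟨u, w, hu, hw, by linarith, ?_, isLocal_dkz hd2⟩
  intro hloc
  have := h (3 / 5) ⟨by norm_num, by norm_num⟩ hloc
  norm_num at this

end Pool.Agent.Results.MP_e6e34a_mp.DKZNotOptimal
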